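import Pool.Agent.Lib.NV5.X_MAE

/-! Project ZK: the auxiliary Monge-Ampère equation with a linear test function. -/

open scoped Classical Topology ContDiff ENNReal ComplexOrder Matrix
open Set MeasureTheory Complex Metric Filter

set_option linter.unusedVariables false

noncomputable section

namespace Pool.Agent.Lib.ZK48

open Pool.Agent.Lib.HS32 Pool.Agent.Lib.DM.K63

variable {n : ℕ} {M : Mf n}

/-- A smooth positive function close to the positive part. -/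
theorem exists_tau {D : M.X → ℝ} (hD : M.Sm D) {η : ℝ} (hη : 0 < η) :
    ∃ τ, M.Sm τ ∧ ∀ x, 0 < τ x ∧ D x ≤ τ x ∧ τ x ≤ max (D x) 0 + η := by
  have p : ∀ x, 0 < D x ^ 2 + η ^ 2 := fun x => by positivity
  refine ⟨fun x => 2⁻¹ * (D x + √(D x ^ 2 + η ^ 2)), (hD.add (((hD.pow 2).add
    (Mf.sm_const _)).comp fun x => Real.contDiffAt_sqrt (p x).ne')).const_mul _, fun x => ?_⟩
  have h1 : |D x| < √(D x ^ 2 + η ^ 2) := Real.lt_sqrt_of_sq_lt (by rw [sq_abs]; nlinarith)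
  have h2 : √(D x ^ 2 + η ^ 2) ≤ |D x| + η := Real.sqrt_le_iff.2 ⟨by positivity, by
    nlinarith [sq_abs (D x), mul_nonneg (abs_nonneg (D x)) hη.le]⟩
  refine ⟨by linarith [neg_abs_le (D x)], by linarith [le_abs_self (D x)], ?_⟩
  rcases abs_cases (D x) with k | k
  · linarith [le_max_left (D x) 0]
  · linarith [le_max_right (D x) 0]

theorem dq_le_one {G T : M.Fam (Mat n)} (hG : M.Met G) (hT : M.Met T) (y : M.X)
    (h : (M.ev G y - M.ev T y).PosSemidef) : M.dq G T y ≤ 1 := by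
  rw [Mf.dq, HS76.det_eq_re (hG.ev_pos y).posSemidef, div_ofReal_re,
    div_le_one (HS76.det_re_pos (hG.ev_pos y))]
  exact HS76.det_mono (hT.ev_pos y) h

/-- The estimate from the auxiliary equation. -/
theorem aux [M.Cpt] (hA : HS.St_AUBIN) {α : M.Fam (Mat n)} {φ w : M.X → ℝ} {b s θ A : ℝ}
    (hn : 0 < n) (hφ : M.Sm φ) (hw : M.Sm w) (hG : M.Kae (α + M.hs w))
    (h0 : M.Le 0 (α + M.hs φ))
    (hb : ∀ ψ, M.Sm ψ → M.Met (α + M.hs ψ) → (∀ x, ψ x ≤ 0) → ∀ x, ψ x ≤ φ x + b)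
    (θ0 : 0 < θ) (θ1 : θ ≤ 1)
    (hI : ∫ x, max (φ x - w x - s) 0 ∂M.mu (α + M.hs w) < A * (M.mu (α + M.hs w)).real univ) :
    ∃ ψ, M.Sm ψ ∧ M.Kae (α + M.hs ψ) ∧ (∀ x, ψ x ≤ 0) ∧ (∃ x, ψ x = 0) ∧
      ∀ x, φ x - w x - s ≤ θ * (φ x - ψ x + b) + 2 * A / θ ^ n := by
  set G := α + M.hs w with eG
  obtain ⟨-, fin, -, v0, -⟩ := mMU n M G hG.toMet
  set V := (M.mu G).real univ with hV
  set I := ∫ x, max (φ x - w x - s) 0 ∂M.mu G with eI
  have I0 : 0 ≤ I := integral_nonneg fun x => le_max_right _ _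
  have A0 : 0 < A := by
    by_contra k
    nlinarith [not_lt.1 k]
  have hD : M.Sm fun x => φ x - w x - s := (hφ.sub hw).sub (Mf.sm_const s)
  obtain ⟨τ, hτ, τ1⟩ := exists_tau hD (η := (A * V - I) / V) (div_pos (by linarith) v0)
  have iτ : ∫ x, τ x ∂M.mu G ≤ A * V := by
    have hm : Integrable (fun x => max (φ x - w x - s) 0) (M.mu G) :=
      int hG.toMet (hD.continuous.max continuous_const)
    have := integral_mono (int hG.toMet hτ.continuous)
      (hm.add (integrable_const ((A * V - I) / V))) fun x => (τ1 x).2.2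
    simp only [Pi.add_apply] at this
    rw [integral_add hm (integrable_const _), integral_const, smul_eq_mul, ← hV, ← eI,
      mul_div_cancel₀ _ v0.ne'] at this
    linarith
  obtain ⟨K, K0, hK⟩ := (hD.sub ((hφ.add (Mf.sm_const b)).const_mul θ)).exists_bound
  set l : ℝ := θ / (2 * K) with hl
  have l0 : 0 < l := by positivity
  obtain ⟨v, hv, hk, he⟩ := hA n M G (fun x => l * w x + Real.log (τ x / A)) l hn hG
    ((hw.const_mul l).add ((hτ.div (Mf.sm_const A) fun _ => A0.ne').log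
      fun x => (div_pos (τ1 x).1 A0).ne')) l0
  have he' : ∀ x, M.dq G (G + M.hs v) x = τ x / A * Real.exp (l * (v x + w x)) := fun x => by
    rw [he, ← add_assoc, ← mul_add, Real.exp_add, Real.exp_log (div_pos (τ1 x).1 A0), mul_comm]
  obtain ⟨y, hy⟩ := (hv.add hw).exists_max
  have S0 : 0 ≤ v y + w y := by
    have k2 := mCOH n M G G v hG.toMet hG.toClo hv
    simp only [hG.toMet.dq_self, integral_const, smul_eq_mul, mul_one] at k2
    have k3 : ∫ x, M.dq G (G + M.hs v) x ∂M.mu G ≤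
        ∫ x, Real.exp (l * (v y + w y)) / A * τ x ∂M.mu G :=
      integral_mono (int hG.toMet (dq_c hG.toMet hk.toTen))
        (int hG.toMet (hτ.const_mul _).continuous) fun x => by
          have := mul_le_mul_of_nonneg_left (Real.exp_le_exp.2
            (mul_le_mul_of_nonneg_left (hy x) l0.le)) (div_pos (τ1 x).1 A0).le
          simp only [he']
          refine this.trans_eq (by ring)
    rw [k2, integral_const_mul] at k3
    have k4 := k3.trans (mul_le_mul_of_nonneg_left iτ (by positivity))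
    rw [← mul_assoc, div_mul_cancel₀ _ A0.ne', ← hV, le_mul_iff_one_le_left v0,
      Real.one_le_exp_iff] at k4
    exact nonneg_of_mul_nonneg_right k4 l0
  have hψ : M.Sm fun x => v x + w x + -(v y + w y) := (hv.add hw).add (Mf.sm_const _)
  have eψ : M.All fun e z => (α + M.hs fun x => v x + w x + -(v y + w y)) e z =
      (G + M.hs v) e z := fun e he z hz => by
    simp only [eG, Pi.add_apply]
    rw [hs_add_const (hv.add hw) _ e he z hz, ((mLAP n M v w hv hw).1 0 e he z hz).2.1]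
    abel
  have ψ0 : ∀ x, v x + w x + -(v y + w y) ≤ 0 := fun x => by linarith [hy x]
  refine ⟨_, hψ, hk.congr eψ, ψ0, ⟨y, add_neg_cancel _⟩, ?_⟩
  have hb' := hb _ hψ (hk.congr eψ).toMet ψ0
  have eψ' := eψ
  generalize hp : (fun x => v x + w x + -(v y + w y)) = ψ at hψ eψ'
  have ep : ∀ x, v x + w x + -(v y + w y) = ψ x := congrFun hp
  simp only [ep] at hb' ⊢
  have hΦ := hD.sub ((hφ.sub hψ).const_mul θ)
  obtain ⟨x₀, hx⟩ := hΦ.exists_max
  suffices φ x₀ - w x₀ - s - θ * (φ x₀ - ψ x₀) ≤ θ * b + 2 * A / θ ^ n from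
    fun x => by linarith [hx x]
  have q0 : 0 < 2 * A / θ ^ n := by positivity
  rcases le_total (θ * ψ x₀) (-K) with c | c
  · linarith [(le_abs_self _).trans (hK x₀)]
  have m1 := (((mLAP n M _ _ hΦ hΦ).2.2 G hG.toMet).2.2.1 x₀ 0).2.2.2.2.2.2.2.2.1
    (Eventually.of_forall hx) |>.2.2 _ (Mf.ch_mem x₀) (Mf.mem_ch x₀)
  have m2 := Mf.psd_rsmul (Mf.AllOn.ch h0 x₀) (sub_nonneg.2 θ1)
  have m3 := dq_le_one hG.toMet (hk.toMet.smul θ0) x₀ (by
    refine (congrArg Matrix.PosSemidef ?_).mpr (m1.add m2)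
    have a1 := Mf.AllOn.ch ((mLAP n M _ _ hD ((hφ.sub hψ).const_mul θ)).1 0) x₀
    have a2 := Mf.AllOn.ch ((mLAP n M _ _ (hφ.sub hw) (Mf.sm_const s)).1 s) x₀
    have a3 := Mf.AllOn.ch ((mLAP n M _ _ hφ hw).1 s) x₀
    have a4 := Mf.AllOn.ch ((mLAP n M _ _ (hφ.sub hψ) hψ).1 θ) x₀
    have a5 := Mf.AllOn.ch ((mLAP n M _ _ hφ hψ).1 θ) x₀
    have a6 := Mf.AllOn.ch eψ' x₀
    simp only [Mf.ev, Pi.smul_apply]
    rw [← a6, a1.2.2.1, a2.2.2.1, a2.1, a3.2.2.1, a4.2.2.2.1, a5.2.2.1]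
    simp only [eG, Pi.add_apply, Pi.zero_apply]
    module)
  rw [Mf.dq_smul, he'] at m3
  have m4 : 2⁻¹ ≤ Real.exp (l * (v x₀ + w x₀)) := by
    have h1 := Real.add_one_le_exp (l * (v x₀ + w x₀))
    have h2 : l * K = θ / 2 := by rw [hl]; field_simp
    have h3 : -(θ / 2) ≤ θ * (l * ψ x₀) := by nlinarith [mul_le_mul_of_nonneg_left c l0.le]
    have h4 : -2⁻¹ ≤ l * ψ x₀ := le_of_mul_le_mul_left (by linarith) θ0
    nlinarith [ep x₀, mul_nonneg l0.le S0]
  have m5 : τ x₀ ≤ 2 * A / θ ^ n := by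
    rw [le_div_iff₀ (pow_pos θ0 n)]
    have h1 := mul_le_mul_of_nonneg_left m4 (mul_pos (pow_pos θ0 n) (div_pos (τ1 x₀).1 A0)).le
    have h2 : θ ^ n * (τ x₀ / A) * 2⁻¹ ≤ 1 := h1.trans ((mul_assoc _ _ _).trans_le m3)
    rw [← mul_div_assoc, div_mul_eq_mul_div, div_le_one A0] at h2
    linarith
  nlinarith [(τ1 x₀).2.1, mul_le_mul_of_nonneg_left (hb' x₀) θ0.le]

end Pool.Agent.Lib.ZK48
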