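import Pool.Agent.Lib.ZK48.Lin
import Pool.Agent.Lib.ZK18.Real
import Pool.Agent.Lib.GH76.Pshp

/-! Project ZK: the uniform estimate for the Monge-Ampère equation in nef classes. -/

open scoped Classical Topology ContDiff ENNReal ComplexOrder Matrix
open Set MeasureTheory Complex Metric Filter

set_option linter.unusedVariables false

noncomputable section

namespace Pool.Agent.Lib.ZK48

open Pool.Agent.Lib.HS32 Pool.Agent.Lib.DM.K63

variable {n : ℕ} {M : Mf n}

theorem young {q a F : ℝ} {k : ℕ} (hq : 1 < q) (hk : 1 ≤ (q - 1) * k) (ha : 1 ≤ a) (hF : 0 ≤ F) :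
    a * F ≤ F ^ q + a ^ (k + 1) := by
  rcases le_total F (a ^ k) with h | h
  · rw [pow_succ']
    exact le_add_of_nonneg_of_le (Real.rpow_nonneg hF _)
      (mul_le_mul_of_nonneg_left h (by linarith))
  · have F1 : 1 ≤ F := (one_le_pow₀ ha).trans h
    have h1 : a ≤ F ^ (q - 1) := by
      refine le_trans ?_ (Real.rpow_le_rpow (by positivity) h (by linarith))
      rw [← Real.rpow_natCast_mul (by linarith), mul_comm]
      exact Real.self_le_rpow_of_one_le ha hk
    refine le_add_of_le_of_nonneg ((mul_le_mul_of_nonneg_right h1 hF).trans_eq ?_) (by positivity)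
    rw [← Real.rpow_add_one (by linarith), sub_add_cancel]

theorem le_psh {H α : M.Fam (Mat n)} {C : ℝ} {ψ : M.X → ℝ} (h : M.Le α (C • H))
    (h' : M.Le 0 (α + M.hs ψ)) : M.Le 0 (C • H + M.hs ψ) := fun e he z hz => by
  have := (h e he z hz).add (h' e he z hz)
  refine (congrArg Matrix.PosSemidef ?_).mpr this
  simp only [Pi.add_apply, Pi.zero_apply]
  abel

variable [M.Cpt]

/-- Moments of quasi-plurisubharmonic functions against a density in `L^q`. -/
theorem moment {H : M.Fam (Mat n)} (hH : M.Met H) (C K : ℝ) {c q : ℝ} (hc : 1 ≤ c) (hq : 1 < q)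
    (j : ℕ) : ∃ B : ℝ, 0 ≤ B ∧ ∀ ψ F : M.X → ℝ, M.Sm ψ → M.Le 0 (C • H + M.hs ψ) →
      (∀ x, ψ x ≤ 0) → (∃ x, ψ x = 0) → Continuous F → (∀ x, 0 ≤ F x) →
      ∫ x, F x ^ q ∂M.mu H ≤ K → ∫ x, (c - ψ x) ^ j * F x ∂M.mu H ≤ B := by
  obtain ⟨k, hk⟩ := exists_nat_ge (q - 1)⁻¹
  have hk' : 1 ≤ (q - 1) * k := by rwa [inv_le_iff_one_le_mul₀' (by linarith)] at hk
  obtain ⟨P, P0, hP⟩ := GH76.pshp M C (j * (k + 1)) hH
  have := (mMU n M H hH).2.1
  set N := j * (k + 1)
  refine ⟨|K| + 2 ^ (N - 1) * (c ^ N * (M.mu H).real univ + P), by positivity,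
    fun ψ F h1 h2 h3 h4 h5 h6 h7 => ?_⟩
  have c1 := h1.continuous
  have iF : Integrable (fun x => F x ^ q) (M.mu H) :=
    int hH (h5.rpow_const fun _ => .inr (by linarith))
  have iP : Integrable (fun x => |ψ x| ^ N) (M.mu H) := int hH (by fun_prop)
  calc _ ≤ ∫ x, (F x ^ q + 2 ^ (N - 1) * (c ^ N + |ψ x| ^ N)) ∂M.mu H :=
        integral_mono (int hH (by fun_prop)) (iF.add (((integrable_const _).add iP).const_mul _))
          fun x => by
            refine (young hq hk' (one_le_pow₀ (by linarith [h3 x])) (h6 x)).trans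
              (add_le_add le_rfl ?_)
            rw [← pow_mul, abs_of_nonpos (h3 x), sub_eq_add_neg]
            exact add_pow_le (by linarith) (by linarith [h3 x]) _
    _ ≤ _ := by
        rw [integral_add iF (((integrable_const _).fun_add iP).const_mul _), integral_const_mul,
          integral_add (integrable_const _) iP, integral_const, smul_eq_mul, mul_comm _ (c ^ N)]
        exact add_le_add (h7.trans (le_abs_self K)) (mul_le_mul_of_nonneg_left
          (add_le_add le_rfl (hP ψ h1 h2 h3 h4)) (by positivity))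

/-- The uniform estimate. -/
theorem uni (hA : HS.St_AUBIN) (hn : 0 < n) {H : M.Fam (Mat n)} (hH : M.Met H) (C b K : ℝ) {q : ℝ}
    (hq : 1 < q) : ∃ S : ℝ, 0 ≤ S ∧ ∀ (α : M.Fam (Mat n)) (φ w F : M.X → ℝ), M.Sm φ → M.Sm w →
      M.Le α (C • H) → M.Kae (α + M.hs w) → M.Le 0 (α + M.hs φ) →
      (∀ ψ, M.Sm ψ → M.Met (α + M.hs ψ) → (∀ x, ψ x ≤ 0) → ∀ x, ψ x ≤ φ x + b) →
      (∀ x, φ x ≤ b) → (∀ x, w x ≤ 0) → (∃ x, w x = 0) → Continuous F →
      (∀ x, M.dq H (α + M.hs w) x ≤ (M.mu (α + M.hs w)).real univ * F x) →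
      ∫ x, F x ^ q ∂M.mu H ≤ K → ∀ x, φ x - w x ≤ S := by
  have b1 : 1 ≤ |b| + 1 := by linarith [abs_nonneg b]
  obtain ⟨B₁, B0, hB₁⟩ := moment hH C K b1 hq 1
  have b2 : 1 ≤ 2 * |b| + 2 * (B₁ + 1) := by linarith [abs_nonneg b]
  obtain ⟨B₂, B2, hB₂⟩ := moment hH C K b2 hq (n + 1 + 1)
  have n0 : (0 : ℝ) < n := Nat.cast_pos.2 hn
  have K0 : 0 < B₁ + 1 := by linarith
  set a : ℝ := ((n + 1 : ℕ) : ℝ)⁻¹ with ha
  have a0 : 0 < a := by positivity
  obtain ⟨S, S0, hS⟩ := ZK18.bound (c := (B₁ + 1)⁻¹ ^ a) (B := B₂) (α := a) (m := n + 1)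
    (by positivity) B2 a0 (inv_lt_one_of_one_lt₀ (by push_cast; linarith))
    (by rw [ha, one_lt_inv_mul₀ (by positivity)]; linarith)
  refine ⟨S, S0, fun α φ w F hφ hw hα hG h0 hb φb w0 w1 cF hF hK => ?_⟩
  obtain ⟨-, fin, -, v0, -⟩ := mMU n M _ hG.toMet
  obtain ⟨-, finH, opn, -, -, -, chm⟩ := mMU n M H hH
  set G := α + M.hs w with eG
  set V := (M.mu G).real univ with hV
  have qp := ((mINV n M H hH).2.2.2.2.2.2.2 G hG.toMet).1
  have cq : Continuous fun x => M.dq H G x / V := (dq_c hH hG.toTen).div_const V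
  have f0 : ∀ x, 0 < M.dq H G x / V := fun x => div_pos (qp x) v0
  have ch : ∀ f : M.X → ℝ, ∫ x, f x ∂M.mu G = (∫ x, f x * (M.dq H G x / V) ∂M.mu H) * V :=
    fun f => by
      rw [(chm G hG.toMet).2.1, ← integral_mul_const]
      refine integral_congr_ae (ae_of_all _ fun x => ?_)
      simp only
      field_simp
  have hK' : ∫ x, (M.dq H G x / V) ^ q ∂M.mu H ≤ K :=
    (integral_mono (int hH (cq.rpow_const fun _ => .inr (by linarith)))
      (int hH (cF.rpow_const fun _ => .inr (by linarith))) fun x =>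
        Real.rpow_le_rpow (f0 x).le ((div_le_iff₀' v0).2 (hF x)) (by linarith)).trans hK
  have cD : Continuous fun x => φ x - w x := (hφ.sub hw).continuous
  obtain ⟨R, -, hR⟩ := (hφ.sub hw).exists_bound
  have key := hS M.X (M.mu H) _ (fun x => φ x - w x) (fun x => (f0 x).le) (int hH cq) (by
    have := ch fun _ => 1
    simp only [integral_const, smul_eq_mul, mul_one, one_mul] at this
    exact le_of_mul_le_mul_right (by linarith) v0) cD.measurable
    ⟨R, fun x => (le_abs_self _).trans (hR x)⟩ fun s hs δ hδ => ?_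
  · have h1 : ∀ᵐ x ∂M.mu H, φ x - w x ≤ S := key.mono fun x hx =>
      not_lt.1 fun h => (f0 x).ne' (hx h)
    have h2 := (isClosed_le cD continuous_const (g := fun _ => S)).isOpen_compl.eq_empty_of_measure_zero
      (μ := M.mu H) h1
    exact fun x => not_not.1 (eq_empty_iff_forall_notMem.1 h2 x)
  set A := ∫ y, max (φ y - w y - s) 0 * (M.dq H G y / V) ∂M.mu H with eA
  have A0 : 0 ≤ A := integral_nonneg fun y => mul_nonneg (le_max_right _ _) (f0 y).le
  have c1 := hw.continuous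
  have A1 : A ≤ B₁ := by
    refine le_trans (integral_mono (int hH (by fun_prop)) (int hH (by fun_prop)) fun y => ?_)
      (hB₁ w _ hw (le_psh hα hG.toMet.nonneg) w0 w1 cq (fun x => (f0 x).le) hK')
    refine mul_le_mul_of_nonneg_right ?_ (f0 y).le
    rw [pow_one]
    exact max_le (by linarith [φb y, le_abs_self b]) (by linarith [w0 y])
  have d0 : 0 < A + δ := by linarith [hδ.1]
  set θ := ((B₁ + 1)⁻¹ * (A + δ)) ^ a with hθ
  have θ0 : 0 < θ := by positivity
  have θn : θ ^ (n + 1) = (B₁ + 1)⁻¹ * (A + δ) :=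
    Real.rpow_inv_natCast_pow (by positivity) n.succ_ne_zero
  obtain ⟨ψ, p1, p2, p3, p4, p5⟩ := aux (s := s) (θ := θ) (A := A + δ) hA hn hφ hw hG h0 hb θ0
    (Real.rpow_le_one (by positivity) (by
      rw [inv_mul_le_one₀ K0]; linarith [hδ.2]) a0.le) (by
      rw [ch]; exact mul_lt_mul_of_pos_right (lt_add_of_pos_right _ hδ.1) v0)
  have p6 := hb ψ p1 p2.toMet p3
  have c2 := p1.continuous
  have c3 := hφ.continuous
  refine ⟨fun x => φ x - ψ x + b + 2 * (B₁ + 1), fun x => by linarith [p6 x],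
    int hH (by fun_prop), ?_, fun x => (p5 x).trans_eq ?_⟩
  · refine le_trans (integral_mono (int hH (by fun_prop)) (int hH (by fun_prop)) fun y => ?_)
      (hB₂ ψ _ p1 (le_psh hα p2.toMet.nonneg) p3 p4 cq (fun x => (f0 x).le) hK')
    exact mul_le_mul_of_nonneg_right (pow_le_pow_left₀ (by linarith [p6 y])
      (by linarith [φb y, le_abs_self b]) _) (f0 y).le
  · have e : A + δ = (B₁ + 1) * θ ^ (n + 1) := by rw [θn, mul_inv_cancel_left₀ K0.ne']
    rw [← Real.mul_rpow (by positivity) d0.le, ← hθ, e]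
    field_simp
    ring

end Pool.Agent.Lib.ZK48
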